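import Pool.Agent.H82.NTB.Stmts

/-! # Row XAJ1 of the board `ntb` -/

set_option autoImplicit false

namespace Pool.NTB

open Pool.NET

private lemma xaj1_tri (S c c' : ℤ) (hS : 0 ≤ S) :
    c' = c ∨ S * c' ≤ S * c - S ∨ S * c + S ≤ S * c' := by
  rcases lt_trichotomy c' c with h | h | h
  · right
    left
    nlinarith
  · left
    exact h
  · right
    right
    nlinarith

theorem xaj1_thm : XSA Ke.J1 := by
  intro p e g N h u hp hH hU v w hv hw h1 h2 h3 h4
  obtain ⟨c, r⟩ := v
  obtain ⟨⟨c', r'⟩, k⟩ := w
  obtain ⟨q0, gq, gW, We, eM, MS⟩ := hp
  have hS : 0 ≤ p.S := by omega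
  have e0 : fx p e g (nx2 h u ((c, r), Ke.J1)) = p.S * c + e := by
    simp only [nx2]
    split_ifs <;> simp only [fx]
  have e1 : fy p e ((c, r), Ke.J1) = p.S * r + e := by simp only [fy]
  have e2 : fx p e g ((c, r), Ke.J1) = p.S * c + p.M - 5 * p.q := by simp only [fx]
  simp only [lo, e0] at h1
  simp only [hi, e2] at h2
  rw [e1] at h3 h4
  have tc := xaj1_tri p.S c c' hS
  have tr := xaj1_tri p.S r r' hS
  cases k
  · -- NW
    exfalso
    simp only [fx] at h1 h2
    rcases tc with rfl | tc | tc <;> omega
  · -- SE
    simp only [fx] at h1 h2
    have hc : c' = c := by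
      rcases tc with rfl | tc | tc
      · rfl
      · exfalso
        omega
      · exfalso
        omega
    subst hc
    by_cases hu : u (c', r' - 1)
    · simp only [jl, pv2, if_pos hu, fy] at h3
      simp only [jh, fy] at h4
      have hr : r' = r + 1 := by
        have e3 : p.S * (r' - 1) = p.S * r' - p.S := by ring
        have e4 : p.S * (r + 1) = p.S * r + p.S := by ring
        rcases xaj1_tri p.S (r + 1) r' hS with h5 | h5 | h5
        · exact h5
        · exfalso
          omega
        · exfalso
          omega
      subst hr
      right
      have hu' : u (c', r) := by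
        have e5 : r + 1 - 1 = r := by ring
        rwa [e5] at hu
      simp only [nx2, if_pos hu']
    · exfalso
      simp only [jl, pv2, if_neg hu, fy] at h3
      simp only [jh, fy] at h4
      rcases tr with rfl | tr | tr <;> omega
  · -- R
    exfalso
    simp only [fx] at h1 h2
    rcases tc with rfl | tc | tc <;> omega
  · -- L
    exfalso
    simp only [fx] at h1 h2
    rcases tc with rfl | tc | tc <;> omega
  · -- T
    simp only [fx] at h1 h2
    have hc : c' = c := by
      rcases tc with rfl | tc | tc
      · rfl
      · exfalso
        omega
      · exfalso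
        omega
    subst hc
    simp only [jl, pv2, fy] at h3
    simp only [jh, fy] at h4
    have hr : r' = r := by
      rcases tr with rfl | tr | tr
      · rfl
      · exfalso
        omega
      · exfalso
        omega
    subst hr
    right
    have hu : ¬ u (c', r') := hw.2
    simp only [nx2, if_neg hu]
  · -- B
    exfalso
    simp only [fx] at h1 h2
    rcases tc with rfl | tc | tc <;> omega
  · -- J1
    simp only [fx] at h1 h2
    have hc : c' = c := by
      rcases tc with rfl | tc | tc
      · rfl
      · exfalso
        omega
      · exfalso
        omega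
    subst hc
    simp only [jl, fy] at h3
    simp only [jh, fy] at h4
    have hr : r' = r := by
      rcases tr with rfl | tr | tr
      · rfl
      · exfalso
        omega
      · exfalso
        omega
    subst hr
    left
    rfl
  · -- J2
    exfalso
    simp only [fx] at h1 h2
    rcases tc with rfl | tc | tc <;> omega
  · -- J3
    exfalso
    simp only [fx] at h1 h2
    rcases tc with rfl | tc | tc <;> omega
  · -- J4
    exfalso
    simp only [fx] at h1 h2
    rcases tc with rfl | tc | tc <;> omega

end Pool.NTB
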